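import Pool.Agent.PSX.DefK

set_option autoImplicit false

/-!
# The probability that a circuit for CLIQUE is right
-/

namespace Pool.Agent.PSZ

open Pool.Agent.PSY Pool.Agent.PSX

/-- The circuit is right on the input `X`: its output is `cliqueK X`. -/
def RightK {N : ℕ} (C : SymCircuit (InK N)) (X : InK N → Bool) : Prop :=
  ∃ v, C.IsVal X v ∧ v C.out = cliqueK X

open Classical in
/-- The probability that the circuit is right on the input which is with probability `1 / 2` the
input `X₀` and with probability `1 / 2` a random one of the inputs `X 0, ..., X (K - 1)`. -/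
noncomputable def successK {N K : ℕ} (C : SymCircuit (InK N)) (X₀ : InK N → Bool)
    (X : Fin K → InK N → Bool) : ℝ :=
  (if RightK C X₀ then 1 else 0) / 2 +
    ((Finset.univ.filter fun i => RightK C (X i)).card : ℝ) / (2 * K)

end Pool.Agent.PSZ
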