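import Pool.Agent.PSZ.Hard
import Pool.Agent.PSX.Sect
import Pool.Agent.PSX.IndexK

set_option autoImplicit false

/-!
# Groups of permutations of the vertices which induce all even permutations of many blocks
-/

namespace Pool.Agent.PSZ

open Pool.Agent.PSY Pool.Agent.PSX AltR

/-- The elements of `G` induce all even permutations on `t` blocks of five disjoint nonempty sets of
vertices. -/
def HasBlocks {N : ℕ} (t : ℕ) (G : Subgroup (Equiv.Perm (Fin N))) : Prop :=
  ∃ c : Fin N → Option (Fin t × Fin 5), (∀ q, ∃ x, c x = some q) ∧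
    ∀ a : Fin t → A5, ∃ σ ∈ G, ∀ x,
      c (σ x) = (c x).map (fun q => (q.1, (a q.1 : Equiv.Perm (Fin 5)) q.2))

/-- Blocks of vertices are blocks of one-element sets. -/
theorem hasBlocks_of_emb {N t : ℕ} (G : Subgroup (Equiv.Perm (Fin N)))
    (b : Fin t × Fin 5 ↪ Fin N)
    (h : ∀ a : Fin t → A5, ∃ σ ∈ G, ∀ i p, σ (b (i, p)) = b (i, (a i : Equiv.Perm (Fin 5)) p)) :
    HasBlocks t G := by
  classical
  obtain ⟨c, hc⟩ : ∃ c : Fin N → Option (Fin t × Fin 5), c = fun x =>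
    if h : ∃ q, b q = x then some h.choose else none := ⟨_, rfl⟩
  have hc1 : ∀ q, c (b q) = some q := by
    intro q
    have h1 : ∃ q', b q' = b q := ⟨q, rfl⟩
    rw [hc]
    change (if h : ∃ q', b q' = b q then some h.choose else none) = some q
    rw [dif_pos h1]
    exact congrArg some (b.injective h1.choose_spec)
  have hc2 : ∀ x, (¬ ∃ q, b q = x) → c x = none := by
    intro x hx
    rw [hc]
    change (if h : ∃ q', b q' = x then some h.choose else none) = none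
    rw [dif_neg hx]
  refine ⟨c, fun q => ⟨b q, hc1 q⟩, fun a => ?_⟩
  obtain ⟨σ, hσ, h1⟩ := h a
  refine ⟨σ, hσ, fun x => ?_⟩
  by_cases hx : ∃ q, b q = x
  · obtain ⟨⟨i, p⟩, rfl⟩ := hx
    rw [h1, hc1, hc1]
    rfl
  · have hx2 : ¬ ∃ q, b q = σ x := by
      rintro ⟨⟨i, q⟩, hq⟩
      refine hx ⟨(i, (a i : Equiv.Perm (Fin 5)).symm q), σ.injective ?_⟩
      rw [h1, Equiv.apply_symm_apply, hq]
    rw [hc2 x hx, hc2 _ hx2]
    rfl

/-- A group of small index induces all even permutations of `t` blocks. -/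
theorem hasBlocks_of_index {N q t : ℕ} (ht : 1 ≤ t) (G : Subgroup (Equiv.Perm (Fin N)))
    (hq : 4 * q + 5 * t ≤ N + 8) (h : N.factorial < Nat.card G * q.factorial) :
    HasBlocks t G := by
  classical
  by_contra hcon
  have hT : ∀ (s : ℕ) (b : Fin s × Fin 5 ↪ Fin N), (∀ i, PSX.AltIn G (blkSet b i)) →
      s ≤ t - 1 := by
    intro s b hb
    by_contra hst
    refine hcon ?_
    have hts : t ≤ s := by omega
    let b' : Fin t × Fin 5 ↪ Fin N :=
      ⟨fun x => b (Fin.castLE hts x.1, x.2), fun x y h => by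
        have h1 := b.injective h
        rw [Prod.mk.injEq] at h1
        exact Prod.ext (Fin.castLE_injective hts h1.1) h1.2⟩
    have hb' : ∀ i, PSX.AltIn G (blkSet b' i) := fun i => hb (Fin.castLE hts i)
    exact hasBlocks_of_emb G b' fun a =>
      ⟨blk b' a, blk_mem_of_altIn G b' hb' a, fun i p => blk_apply b' a i p⟩
  obtain ⟨W, hW1, hW2⟩ := exists_no5 G hT
  have h1 := index_of_no5 G W hW2 q (by omega)
  have h2 : Nat.card G * G.index = N.factorial := by
    rw [Subgroup.card_mul_index, Nat.card_perm, Nat.card_eq_fintype_card, Fintype.card_fin]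
  have h3 : Nat.card G * q.factorial ≤ Nat.card G * G.index := Nat.mul_le_mul_left _ h1
  omega

/-- The elements of `A_5 ^ s` induced by elements of `G`. -/
def Ind {N s : ℕ} (b : Fin s × Fin 5 ↪ Fin N) (G : Subgroup (Equiv.Perm (Fin N))) :
    Subgroup (Fin s → A5) where
  carrier := {a | ∃ σ ∈ G, ∀ i p, σ (b (i, p)) = b (i, (a i : Equiv.Perm (Fin 5)) p)}
  one_mem' := ⟨1, one_mem G, fun i p => rfl⟩
  mul_mem' := by
    rintro a a' ⟨σ, hσ, h1⟩ ⟨σ', hσ', h1'⟩
    refine ⟨σ * σ', mul_mem hσ hσ', fun i p => ?_⟩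
    rw [Equiv.Perm.mul_apply, h1', h1]
    rfl
  inv_mem' := by
    rintro a ⟨σ, hσ, h1⟩
    refine ⟨σ⁻¹, inv_mem hσ, fun i p => ?_⟩
    rw [Equiv.Perm.inv_eq_iff_eq, h1]
    exact congrArg (fun x => b (i, x)) (Equiv.apply_symm_apply _ _).symm

/-- A group which induces many families of even permutations on some disjoint five-element sets
induces all of them on `t` of these sets. -/
theorem hasBlocks_of_card {N s t : ℕ} (G : Subgroup (Equiv.Perm (Fin N)))
    (b : Fin s × Fin 5 ↪ Fin N)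
    (h : 12 ^ s * 5 ^ t ≤ Nat.card {a : Fin s → A5 //
      ∃ σ ∈ G, ∀ i p, σ (b (i, p)) = b (i, (a i : Equiv.Perm (Fin 5)) p)}) : HasBlocks t G := by
  classical
  obtain ⟨H, hH⟩ : ∃ H : Subgroup (Fin s → A5), H = Ind b G := ⟨_, rfl⟩
  have hmem : ∀ a, a ∈ H ↔ ∃ σ ∈ G, ∀ i p, σ (b (i, p)) = b (i, (a i : Equiv.Perm (Fin 5)) p) := by
    intro a
    rw [hH]
    exact Iff.rfl
  have hcard : Nat.card {a : Fin s → A5 //
      ∃ σ ∈ G, ∀ i p, σ (b (i, p)) = b (i, (a i : Equiv.Perm (Fin 5)) p)} = Nat.card H :=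
    Nat.card_congr (Equiv.subtypeEquivRight fun a => (hmem a).symm)
  rw [hcard] at h
  obtain ⟨B, hB⟩ : ∃ B : Finset (Fin s),
      B = Finset.univ.filter (fun i => ∃ x : A5, Pi.mulSingle i x ∉ H) := ⟨_, rfl⟩
  have hmemB : ∀ i, i ∈ B ↔ ∃ x : A5, Pi.mulSingle i x ∉ H := by
    intro i; rw [hB]; simp
  have h1 : 5 ^ B.card ≤ H.index := support5_le H B (fun i hi => (hmemB i).1 hi)
  have hoff : ∀ a : Fin s → A5, (∀ i ∈ B, a i = 1) → a ∈ H := by
    intro a ha
    refine Subgroup.pi_mem_of_mulSingle_mem a (fun i => ?_)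
    by_cases hi : i ∈ B
    · rw [ha i hi, Pi.mulSingle_one]
      exact one_mem _
    · by_contra hcon
      exact hi ((hmemB i).2 ⟨_, hcon⟩)
  have hBs : B.card ≤ s := by
    have := Finset.card_le_univ B
    rwa [Fintype.card_fin] at this
  have h4 : Nat.card H * H.index = 60 ^ s := by
    rw [H.card_mul_index, card_pow]
  have hts : t ≤ s - B.card := by
    have h5 : 12 ^ s * (5 ^ t * 5 ^ B.card) ≤ 12 ^ s * 5 ^ s := by
      calc 12 ^ s * (5 ^ t * 5 ^ B.card) = 12 ^ s * 5 ^ t * 5 ^ B.card := by ring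
        _ ≤ Nat.card H * H.index := Nat.mul_le_mul h h1
        _ = 12 ^ s * 5 ^ s := by
          rw [h4, ← mul_pow]
          norm_num
    have h6 := Nat.le_of_mul_le_mul_left h5 (by positivity)
    rw [← pow_add] at h6
    have h7 := (Nat.pow_le_pow_iff_right (by norm_num : 1 < 5)).1 h6
    omega
  have hcompl : (Bᶜ).card = s - B.card := by
    rw [Finset.card_compl, Fintype.card_fin]
  let j : Fin t ↪ Fin s :=
    (Fin.castLEEmb hts).trans ((Bᶜ).orderEmbOfFin hcompl).toEmbedding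
  have hj : ∀ n, j n ∉ B := by
    intro n
    have : (Bᶜ).orderEmbOfFin hcompl (Fin.castLE hts n) ∈ Bᶜ := Finset.orderEmbOfFin_mem _ _ _
    exact Finset.mem_compl.1 this
  refine hasBlocks_of_emb G ((j.prodMap (Function.Embedding.refl (Fin 5))).trans b) fun a => ?_
  obtain ⟨σ, hσ, h2⟩ := (hmem (Function.extend j a 1)).1 (hoff _ (fun i hi => by
    rw [Function.extend_apply' _ _ _ (fun ⟨n, hn⟩ => hj n (hn ▸ hi))]
    rfl))
  refine ⟨σ, hσ, fun i p => ?_⟩
  change σ (b (j i, p)) = b (j i, (a i : Equiv.Perm (Fin 5)) p)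
  rw [h2, j.injective.extend_apply]

/-- **Average case.** -/
theorem hard_group {N t : ℕ} (ht : 1 ≤ t) (G : Subgroup (Equiv.Perm (Fin N)))
    (hG : (∃ (m : ℕ) (f : G →* alternatingGroup (Fin m)), 5 * Nat.log 5 N + 5 * t ≤ m ∧
        Function.Surjective f) ∨
      (∃ q : ℕ, 4 * q + 5 * t ≤ N + 8 ∧ N.factorial < Nat.card G * q.factorial) ∨
      ∃ (s : ℕ) (b : Fin s × Fin 5 ↪ Fin N), 12 ^ s * 5 ^ t ≤
        Nat.card {a : Fin s → alternatingGroup (Fin 5) //
          ∃ σ ∈ G, ∀ i p, σ (b (i, p)) = b (i, (a i : Equiv.Perm (Fin 5)) p)}) :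
    ∃ K : ℕ, 0 < K ∧ ∃ (X₀ : InK N → Bool) (X : Fin K → InK N → Bool), cliqueK X₀ = true ∧
      (∀ i, cliqueK (X i) = false) ∧ ∀ (C : SymCircuit (InK N)) (U : Finset C.Gate),
        (∀ σ ∈ G, SymK C U σ) → (51 : ℝ) / 100 < successK C X₀ X →
        5 ^ t ≤ (C.size + 1) ^ (52000 * (C.wires U + 1)) := by
  obtain ⟨c, hc, hb⟩ : HasBlocks t G := by
    rcases hG with ⟨m, f, hm, hf⟩ | ⟨q, hq, h⟩ | ⟨s, b, h⟩
    · exact sections (by rw [Fintype.card_fin]) G f hf ht hm
    · exact hasBlocks_of_index ht G hq h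
    · exact hasBlocks_of_card G b h
  obtain ⟨K, hK, X₀, X, h1, h2, h3⟩ := hard_blocks ht c hc
  refine ⟨K, hK, X₀, X, h1, h2, fun C U hsym h51 => h3 C U (fun a => ?_) h51⟩
  obtain ⟨σ, hσ, h4⟩ := hb a
  exact ⟨σ, h4, hsym σ hσ⟩

end Pool.Agent.PSZ
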