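import Mathlib

set_option autoImplicit false

/-!
# Numbers
-/

namespace Pool.Agent.PSZ

/-- From the lower bound for the size to the bound for the number of blocks. -/
theorem num_blocks (t M S F : ℕ) (hS : 1 ≤ S) (ht : 5 * t < 48 * M ^ 2)
    (h : ∀ m : ℕ, 2 ≤ m → 8000 * ((F + 1) * m) ≤ 7 * M ^ 2 → 2 ^ (m + 1) ≤ S) :
    5 ^ t ≤ (S + 1) ^ (52000 * (F + 1)) := by
  obtain ⟨m, hm⟩ : ∃ m, m = 7 * M ^ 2 / (8000 * (F + 1)) := ⟨_, rfl⟩
  have h1 : 7 * M ^ 2 < 8000 * (F + 1) * (m + 1) := by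
    rw [hm]
    exact Nat.lt_mul_div_succ _ (by positivity)
  have h0 : 8000 * (F + 1) * m ≤ 7 * M ^ 2 := by
    rw [hm]
    exact Nat.mul_div_le _ _
  -- `5 ^ 3 ≤ 2 ^ 7`
  have h5 : ∀ e : ℕ, 3 * t ≤ 3 * e → (5 : ℕ) ^ (3 * t) ≤ 2 ^ (7 * e) := by
    intro e he
    calc (5 : ℕ) ^ (3 * t) = (5 ^ 3) ^ t := by rw [pow_mul]
      _ ≤ (2 ^ 7) ^ t := Nat.pow_le_pow_left (by norm_num) t
      _ = 2 ^ (7 * t) := by rw [← pow_mul]
      _ ≤ 2 ^ (7 * e) := Nat.pow_le_pow_right (by norm_num) (by omega)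
  have hcube : ∀ a b : ℕ, a ^ 3 ≤ b ^ 3 → a ≤ b := fun a b hab =>
    (Nat.pow_le_pow_iff_left (by norm_num)).1 hab
  have hle : t ≤ 10972 * ((F + 1) * (m + 1)) := by
    have h2 : 8000 * (F + 1) * (m + 1) = 8000 * ((F + 1) * (m + 1)) := by ring
    omega
  refine hcube _ _ ?_
  rw [← pow_mul, mul_comm t 3, ← pow_mul]
  refine (h5 (10972 * ((F + 1) * (m + 1))) (by omega)).trans ?_
  rcases Nat.lt_or_ge m 2 with hm2 | hm2
  · calc 2 ^ (7 * (10972 * ((F + 1) * (m + 1)))) ≤ 2 ^ (52000 * (F + 1) * 3) := by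
          refine Nat.pow_le_pow_right (by norm_num) ?_
          have h3 : (F + 1) * (m + 1) ≤ (F + 1) * 2 := Nat.mul_le_mul_left _ (by omega)
          omega
      _ ≤ (S + 1) ^ (52000 * (F + 1) * 3) := Nat.pow_le_pow_left (by omega) _
  · have h4 := h m hm2 (by
      have h2 : 8000 * (F + 1) * m = 8000 * ((F + 1) * m) := by ring
      omega)
    have h9 : 7 * (10972 * ((F + 1) * (m + 1))) = (m + 1) * (76804 * (F + 1)) := by ring
    calc 2 ^ (7 * (10972 * ((F + 1) * (m + 1)))) = (2 ^ (m + 1)) ^ (76804 * (F + 1)) := by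
          rw [h9]
          exact pow_mul 2 (m + 1) (76804 * (F + 1))
      _ ≤ (S + 1) ^ (76804 * (F + 1)) := Nat.pow_le_pow_left (by omega) _
      _ ≤ (S + 1) ^ (52000 * (F + 1) * 3) := Nat.pow_le_pow_right (by omega) (by omega)

end Pool.Agent.PSZ
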