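import Pool.Agent.PSZ.Low
import Pool.Agent.PSZ.Def
import Pool.Agent.PSZ.Num

set_option autoImplicit false

/-!
# The distribution for the blocks
-/

namespace Pool.Agent.PSZ

open Pool.Agent.PSY Pool.Agent.PSX Pool.Agent.NXL

theorem clique_iff {V : Type} (k : ℕ) (X : Sym2 V → Bool) : clique k X = true ↔
    ∃ s : Finset V, s.card = k ∧ ∀ x ∈ s, ∀ y ∈ s, x ≠ y → X s(x, y) = true := by
  classical
  unfold clique
  rw [decide_eq_true_eq]

/-- **Blocks, average case.** For `t` blocks of five disjoint nonempty sets of vertices there are an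
input with a clique and inputs without one, such that every circuit, which is right with probability
above 51 per cent and for which all elements of `A_5 ^ t` are induced by symmetries, is large. -/
theorem hard_blocks {N t : ℕ} (ht1 : 1 ≤ t) (c : Fin N → Option (Fin t × Fin 5))
    (hc : ∀ q, ∃ x, c x = some q) :
    ∃ K : ℕ, 0 < K ∧ ∃ (X₀ : InK N → Bool) (X : Fin K → InK N → Bool), cliqueK X₀ = true ∧
      (∀ i, cliqueK (X i) = false) ∧ ∀ (C : SymCircuit (InK N)) (U : Finset C.Gate),
        (∀ a : Fin t → A5, ∃ σ : Equiv.Perm (Fin N),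
          (∀ x, c (σ x) = (c x).map (fun q => (q.1, (a q.1 : Equiv.Perm (Fin 5)) q.2))) ∧
            SymK C U σ) →
        (51 : ℝ) / 100 < successK C X₀ X →
        5 ^ t ≤ (C.size + 1) ^ (52000 * (C.wires U + 1)) := by
  classical
  rcases Nat.lt_or_ge t 3528 with hlt | hge
  · -- few blocks
    obtain ⟨x₀, hx₀⟩ := hc (⟨0, by omega⟩, 0)
    obtain ⟨x₁, hx₁⟩ := hc (⟨0, by omega⟩, 1)
    have hne : x₀ ≠ x₁ := by
      rintro rfl
      rw [hx₀] at hx₁
      simp at hx₁
    have hN : 2 ≤ N := by
      by_contra hN
      have h1 : Subsingleton (Fin N) := Fin.subsingleton_iff_le_one.2 (by omega)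
      exact hne (Subsingleton.elim _ _)
    refine ⟨1, Nat.one_pos, fun _ => true, fun _ => Sum.elim (fun _ => false) (fun _ => true),
      ?_, ?_, ?_⟩
    · unfold cliqueK
      exact (clique_iff _ _).2 ⟨Finset.univ, by simp, fun x _ y _ _ => rfl⟩
    · intro i
      unfold cliqueK
      rw [← Bool.not_eq_true, clique_iff]
      rintro ⟨s, hs, h⟩
      have h1 : (Finset.univ.filter fun j : Fin N =>
          (Sum.elim (fun _ => false) (fun _ => true) : InK N → Bool) (Sum.inr j) = true).card =
          N := by simp
      rw [h1] at hs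
      obtain ⟨x, hx⟩ : s.Nonempty := Finset.card_pos.1 (by omega)
      obtain ⟨y, hy, hyx⟩ := Finset.exists_mem_ne (by omega : 1 < s.card) x
      exact Bool.false_ne_true (h x hx y hy (Ne.symm hyx))
    · intro C U _ _
      have hS : 1 ≤ C.size := by
        have : Nonempty C.Gate := ⟨C.out⟩
        exact Fintype.card_pos
      calc 5 ^ t ≤ (2 ^ 3) ^ t := Nat.pow_le_pow_left (by norm_num) t
        _ = 2 ^ (3 * t) := by rw [← pow_mul]
        _ ≤ 2 ^ (52000 * (C.wires U + 1)) := Nat.pow_le_pow_right (by norm_num) (by omega)
        _ ≤ (C.size + 1) ^ (52000 * (C.wires U + 1)) := Nat.pow_le_pow_left (by omega) _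
  · -- many blocks
    obtain ⟨M, hM, h8, h5, h441⟩ := choose_M2 t hge
    have : NeZero M := ⟨by rintro rfl; norm_num at h441⟩
    have hM0 : 0 < M ^ 2 := by omega
    have hcard : Fintype.card (Nd M) ≤ Fintype.card (Fin t) := by
      rw [card_Nd, Fintype.card_fin]
      exact h8
    obtain ⟨j⟩ := Function.Embedding.nonempty_of_card_le hcard
    have hVt : Fintype.card (Vt M) = M ^ 2 := by
      simp only [Vt, Fintype.card_prod, ZMod.card]
      ring
    obtain ⟨e⟩ : Nonempty (Fin (M ^ 2) ≃ Vt M) := by
      rw [← hVt]
      exact ⟨(Fintype.equivFin (Vt M)).symm⟩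
    have hsurj := subC_surj j c hc
    refine ⟨M ^ 2, hM0, instC (subC j c) 0, fun i => instC (subC j c) (tw (e i)),
      instC_zero _ hsurj, fun i => instC_tw _ hsurj (e i), ?_⟩
    intro C U hsym h51
    have hS : 1 ≤ C.size := by
      have : Nonempty C.Gate := ⟨C.out⟩
      exact Fintype.card_pos
    have hw : C.toCircuit.wiresInto U ≤ C.wires U := C.toCircuit_wires U
    have hinv : ∀ a : Nd M → A5, IndC (subC j c) C.toCircuit U a := by
      intro a
      refine IndC.sub j c C.toCircuit U a ?_
      obtain ⟨σ, h3, s, h4, h6⟩ := hsym (Function.extend j a 1)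
      have h7 : s = onK σ := by
        ext i
        rw [h4 i]
        rfl
      rw [h7] at h6
      exact ⟨σ, h3, C.toCircuit_autU U _ h6⟩
    have hkey : ∀ m : ℕ, 2 ≤ m → 8000 * ((C.toCircuit.wiresInto U + 1) * m) ≤ 7 * M ^ 2 →
        2 ^ (m + 1) ≤ C.size := by
      intro m hm2 hm
      by_contra hsize
      push Not at hsize
      have h0 := most_sameC hM (subC j c) C.toCircuit U m hm2 hm hinv hsize
      -- a right circuit has different values
      have hval : ∀ X, RightK C X → C.toCircuit.val X C.toCircuit.out = cliqueK X := by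
        rintro X ⟨v, hv, ho⟩
        rw [← ho]
        exact (C.toCircuit_val X v hv C.out).symm
      obtain ⟨R, hR⟩ : ∃ R, R = (Finset.univ.filter fun i : Fin (M ^ 2) =>
        RightK C (instC (subC j c) (tw (e i)))).card := ⟨_, rfl⟩
      unfold successK at h51
      rw [← hR] at h51
      push_cast at h51
      have hMr : (0 : ℝ) < (M : ℝ) ^ 2 := by exact_mod_cast hM0
      by_cases hX0 : RightK C (instC (subC j c) (0 : Eg M → ZMod 2))
      · rw [if_pos hX0] at h51
        have hR2 : R = (Finset.univ.filter fun z : Vt M =>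
            RightK C (instC (subC j c) (tw z))).card := by
          rw [hR, ← Finset.card_map e.toEmbedding]
          congr 1
          ext z
          simp only [Finset.mem_map, Finset.mem_filter, Finset.mem_univ, true_and,
            Equiv.coe_toEmbedding]
          constructor
          · rintro ⟨i, hi, rfl⟩
            exact hi
          · intro hz
            exact ⟨e.symm z, by rw [Equiv.apply_symm_apply]; exact hz, e.apply_symm_apply z⟩
        have hdisj : Disjoint (Finset.univ.filter fun z : Vt M =>
            C.toCircuit.val (instC (subC j c) (tw z)) C.toCircuit.out =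
              C.toCircuit.val (instC (subC j c) 0) C.toCircuit.out)
            (Finset.univ.filter fun z : Vt M => RightK C (instC (subC j c) (tw z))) := by
          rw [Finset.disjoint_filter]
          intro z _ hz hr
          rw [hval _ hX0, hval _ hr, instC_zero _ hsurj, instC_tw _ hsurj] at hz
          exact Bool.false_ne_true hz
        have hsum : (Finset.univ.filter fun z : Vt M =>
            C.toCircuit.val (instC (subC j c) (tw z)) C.toCircuit.out =
              C.toCircuit.val (instC (subC j c) 0) C.toCircuit.out).card + R ≤ M ^ 2 := by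
          rw [hR2, ← Finset.card_union_of_disjoint hdisj, ← hVt]
          exact Finset.card_le_univ _
        have h50 : 50 * R ≤ M ^ 2 := by omega
        have h50' : (50 : ℝ) * R ≤ (M : ℝ) ^ 2 := by exact_mod_cast h50
        have h1 : (R : ℝ) / (2 * (M : ℝ) ^ 2) ≤ 1 / 100 := by
          rw [div_le_iff₀ (by positivity)]
          linarith
        linarith
      · rw [if_neg hX0] at h51
        have hsum : R ≤ M ^ 2 := by
          rw [hR]
          refine (Finset.card_le_univ _).trans ?_
          rw [Fintype.card_fin]
        have hsum' : (R : ℝ) ≤ (M : ℝ) ^ 2 := by exact_mod_cast hsum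
        have h1 : (R : ℝ) / (2 * (M : ℝ) ^ 2) ≤ 1 / 2 := by
          rw [div_le_iff₀ (by positivity)]
          linarith
        linarith
    have hnum := num_blocks t M C.size (C.toCircuit.wiresInto U) hS h5 hkey
    exact hnum.trans (Nat.pow_le_pow_right (Nat.succ_pos _) (by omega))

end Pool.Agent.PSZ
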