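import Pool.Agent.PSZ.Most
import Pool.Agent.PSX.PartC

set_option autoImplicit false

/-!
# CLIQUE: the value on almost all instances without a clique is the value on the one with a clique
-/

namespace Pool.Agent.PSZ

open Pool.Agent.PSY Pool.Agent.PSX Pool.Agent.NXL

/-- The instance of CLIQUE on the sets of clones. -/
noncomputable def instC {N M : ℕ} (c : Fin N → Option (Nd M × Fin 5)) (w : Eg M → ZMod 2) :
    InK N → Bool :=
  subst (tauC c) (kapK (8 * M ^ 2)) (inst (Function.Embedding.refl (Nd M × Fin 5)) ∅ w)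

theorem card_le_of_surj {N M : ℕ} [NeZero M] (c : Fin N → Option (Nd M × Fin 5))
    (hc : ∀ q, ∃ x, c x = some q) : 5 * (8 * M ^ 2) ≤ N := by
  choose f hf using hc
  have hinj : Function.Injective f := by
    intro q q' h
    have h1 := hf q
    rw [h, hf q'] at h1
    exact (Option.some.inj h1).symm
  have h1 := Fintype.card_le_of_injective f hinj
  rw [Fintype.card_prod, card_Nd, Fintype.card_fin, Fintype.card_fin] at h1
  omega

theorem instC_zero {N M : ℕ} [NeZero M] (c : Fin N → Option (Nd M × Fin 5))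
    (hc : ∀ q, ∃ x, c x = some q) : cliqueK (instC c (0 : Eg M → ZMod 2)) = true := by
  have hM1 : 1 ≤ M ^ 2 := Nat.one_le_iff_ne_zero.2 (pow_ne_zero 2 (NeZero.ne M))
  have hN := card_le_of_surj c hc
  unfold instC
  rw [cliqueK_restrC c hc (8 * M ^ 2) (by omega) (by omega)]
  have h := clique_zero (M := M) (Function.Embedding.refl (Nd M × Fin 5)) ∅ (by simp)
  rwa [Finset.card_empty, zero_add] at h

theorem instC_tw {N M : ℕ} [NeZero M] (c : Fin N → Option (Nd M × Fin 5))
    (hc : ∀ q, ∃ x, c x = some q) (z : Vt M) : cliqueK (instC c (tw z)) = false := by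
  have hM1 : 1 ≤ M ^ 2 := Nat.one_le_iff_ne_zero.2 (pow_ne_zero 2 (NeZero.ne M))
  have hN := card_le_of_surj c hc
  unfold instC
  rw [cliqueK_restrC c hc (8 * M ^ 2) (by omega) (by omega)]
  have h := clique_twist (M := M) (Function.Embedding.refl (Nd M × Fin 5)) ∅ (by simp) z
  rwa [Finset.card_empty, zero_add] at h

/-- A small circuit with the symmetries of the blocks of clones has on 98 per cent of the instances
without a clique the same value as on the instance with a clique. -/
theorem most_sameC {N M : ℕ} [NeZero M] (hM : Odd M) (c : Fin N → Option (Nd M × Fin 5))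
    (C : Circuit (InK N)) (U : Finset C.Gate) (m : ℕ) (hm2 : 2 ≤ m)
    (hm : 8000 * ((C.wiresInto U + 1) * m) ≤ 7 * M ^ 2) (hinv : ∀ a : Nd M → A5, IndC c C U a)
    (hsize : C.size < 2 ^ (m + 1)) :
    49 * M ^ 2 ≤ 50 * (Finset.univ.filter fun z : Vt M =>
      C.val (instC c (tw z)) C.out = C.val (instC c 0) C.out).card := by
  classical
  have h0 := most_same hM (Function.Embedding.refl (Nd M × Fin 5)) ∅ (by simp) m hm2
    (C.restr (tauC c) (kapK (8 * M ^ 2))) U ?_ ?_ hsize
  · refine h0.trans (Nat.mul_le_mul_left 50 (Finset.card_le_card ?_))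
    intro z hz
    rw [Finset.mem_filter] at hz ⊢
    refine ⟨Finset.mem_univ _, ?_⟩
    have h1 := hz.2
    have h2 := restr_val C (tauC c) (kapK (8 * M ^ 2))
      (inst (Function.Embedding.refl (Nd M × Fin 5)) ∅ (tw z)) C.out
    have h3 := restr_val C (tauC c) (kapK (8 * M ^ 2))
      (inst (Function.Embedding.refl (Nd M × Fin 5)) ∅ (0 : Eg M → ZMod 2)) C.out
    exact h2.symm.trans (h1.trans h3)
  · have h1 := restr_wires C (tauC c) (kapK (8 * M ^ 2)) U
    have h2 : ((C.restr (tauC c) (kapK (8 * M ^ 2))).wiresInto U + 1) * m ≤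
        (C.wiresInto U + 1) * m := Nat.mul_le_mul_right m (by omega)
    omega
  · intro a
    obtain ⟨σ, h1, π, h2⟩ := hinv a
    exact ⟨π, restr_autU C _ _ U (onK σ) _ (tauC_onK c a σ h1) (kapK_onK _ σ) π h2⟩

end Pool.Agent.PSZ
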