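import Pool.Agent.PSY.LowU
import Pool.Agent.PSY.Many

set_option autoImplicit false

/-!
# A small invariant circuit has the same value on almost all twisted instances
-/

namespace Pool.Agent.PSZ

open Pool.Agent.PSY Pool.Agent.NXL

/-- A small circuit which is invariant up to the gates in `U` has on 98 per cent of the twisted
instances the same value as on the untwisted one. -/
theorem most_same {M : ℕ} [NeZero M] (hM : Odd M) {V : Type} [Fintype (Sym2 V)]
    (b : Nd M × Fin 5 ↪ V) (Q : Finset V) (hQ : ∀ x ∈ Q, x ∉ Set.range b) (m : ℕ) (hm2 : 2 ≤ m)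
    (C : Circuit (Sym2 V)) (U : Finset C.Gate)
    (hm : 8000 * ((C.wiresInto U + 1) * m) ≤ 7 * M ^ 2)
    (hinv : ∀ a : Nd M → A5, ∃ π, C.AutU U (pairs (blk b a)) π)
    (hsize : C.size < 2 ^ (m + 1)) :
    49 * M ^ 2 ≤ 50 * (Finset.univ.filter fun z : Vt M =>
      C.val (inst b Q (tw z)) C.out = C.val (inst b Q 0) C.out).card := by
  classical
  have := A5_simple
  have hM0 : 0 < M ^ 2 := pow_pos (NeZero.pos M) 2
  have hX1 : 0 < (C.wiresInto U + 1) * m := Nat.mul_pos (Nat.succ_pos _) (by omega)
  obtain ⟨B, hB, hsame⟩ := main_outU A5_noncomm C U ((pairs (V := V)).comp (blk b)) hinv m hsize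
    hm2 (fun e => sp b e) (fun e => card_sp b e) (fun a e => sp_act b a e) (Vt M)
    (fun B z => Good B z) (inst b Q 0) (fun z => inst b Q (tw z))
    (fun z B B' hBB hg => Good.mono hBB hg)
    (fun z B e hg he => inst_sp0 b Q B z (hg.not_mem 0) e he)
    (fun B B' z hB hB' hg => by
      obtain ⟨z', hz', he⟩ := Good.move hM ((C.wiresInto U + 1) * m) (by omega) B B' hB hB' z hg
      obtain ⟨a, ha, h⟩ := inst_move b Q hQ B (tw z) (tw z') he
      exact ⟨z', hz', a, ha, h⟩)
  have h2 : C.wiresInto U * m ≤ (C.wiresInto U + 1) * m := Nat.mul_le_mul_right m (by omega)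
  have hmany := many_good hM B (by omega)
  have h3 : (Finset.univ.filter fun z : Vt M => Good B z).card ≤
      (Finset.univ.filter fun z : Vt M =>
        C.val (inst b Q (tw z)) C.out = C.val (inst b Q 0) C.out).card := by
    refine Finset.card_le_card ?_
    intro z hz
    rw [Finset.mem_filter] at hz ⊢
    exact ⟨Finset.mem_univ _, hsame z hz.2⟩
  omega

end Pool.Agent.PSZ
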